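import Mathlib
import Pool.Agent.Lib.H8.Arith

set_option maxHeartbeats 400000

namespace Pool.Agent.Results.MP_be00aa_lc.Proper

open Pool.Agent.Lib.H8.Arith

/-- A structure for the language with one binary relation, with universe a nonempty subset of `ℕ`. -/
structure Str where
  U : Set ℕ
  ne : U.Nonempty
  R : U → U → Prop

/-- Isomorphism of structures. -/
def Iso (A B : Str) : Prop := ∃ f : A.U ≃ B.U, ∀ x y, A.R x y ↔ B.R (f x) (f y)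

/-- The atomic diagram: `(0,a,b)`, `(1,a,b)`, `(2,a,b)`, `(3,a,b)` code the sentences
`a = b`, `a ≠ b`, `R a b`, `¬ R a b` with constants `a, b` from the universe. -/
def Diag (A : Str) (t : ℕ × ℕ × ℕ) : Prop :=
  ∃ (ha : t.2.1 ∈ A.U) (hb : t.2.2 ∈ A.U), (t.1 = 0 ∧ t.2.1 = t.2.2) ∨ (t.1 = 1 ∧ t.2.1 ≠ t.2.2) ∨
    (t.1 = 2 ∧ A.R ⟨_, ha⟩ ⟨_, hb⟩) ∨ (t.1 = 3 ∧ ¬ A.R ⟨_, ha⟩ ⟨_, hb⟩)

/-- The `e`-th function in the standard numbering of the Turing computable functions `ℕ →. ℕ`. -/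
def phi (e : ℕ) : ℕ →. ℕ := (Denumerable.ofNat Nat.Partrec.Code e).eval

/-- `φ_e` is the characteristic function of the atomic diagram of `A`. -/
def Computes (e : ℕ) (A : Str) : Prop :=
  ∀ t : ℕ × ℕ × ℕ, (Diag A t → 1 ∈ phi e (Encodable.encode t)) ∧
    (¬ Diag A t → 0 ∈ phi e (Encodable.encode t))

/-- The isomorphism problem `E(K)`. -/
def E (K : Str → Prop) (p : ℕ × ℕ) : Prop :=
  ∃ A B, Computes p.1 A ∧ Computes p.2 B ∧ K A ∧ K B ∧ Iso A B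

def Lin (m : ℕ) (A : Str) : Prop := ∃ f : Fin (m + 1) ≃ A.U, ∀ i j, i < j ↔ A.R (f i) (f j)

def chi (p : List ℕ × ℕ × ℕ × ℕ) : Prop :=
  ∃ i < p.1.length, ∃ j < p.1.length, p.1.getD i 0 = p.2.2.1 ∧ p.1.getD j 0 = p.2.2.2 ∧
    ((p.2.1 = 0 ∧ i = j) ∨ (p.2.1 = 1 ∧ ¬ i = j) ∨ (p.2.1 = 2 ∧ i < j) ∨ (p.2.1 = 3 ∧ ¬ i < j))

def ND (l : List ℕ) : Prop := ∀ i < l.length, ∀ j < l.length, l.getD i 0 = l.getD j 0 → i = j

def Sz (a m : ℕ) : Prop := ∃ l : List ℕ, ND l ∧ l.length = m + 1 ∧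
  ∀ t : ℕ × ℕ × ℕ, (chi (l, t) → 1 ∈ phi a (Encodable.encode t)) ∧
    (¬ chi (l, t) → 0 ∈ phi a (Encodable.encode t))

lemma diag_chi {m : ℕ} {A : Str} (f : Fin (m + 1) ≃ A.U) (hf : ∀ i j, i < j ↔ A.R (f i) (f j))
    {l : List ℕ} (hl : l.length = m + 1) (hg : ∀ i : Fin (m + 1), l.getD i 0 = f i)
    (t : ℕ × ℕ × ℕ) : Diag A t ↔ chi (l, t) := by
  obtain ⟨k, a, b⟩ := t
  have inj : ∀ i j : Fin (m + 1), ((f i : ℕ) = f j) ↔ (i : ℕ) = j := fun i j => by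
    rw [Subtype.val_inj, f.apply_eq_iff_eq, Fin.val_inj]
  constructor
  · rintro ⟨ha, hb, h⟩
    obtain ⟨i, hi⟩ := f.surjective ⟨a, ha⟩
    obtain ⟨j, hj⟩ := f.surjective ⟨b, hb⟩
    have ea : a = f i := by rw [hi]
    have eb : b = f j := by rw [hj]
    refine ⟨i, i.2.trans_eq hl.symm, j, j.2.trans_eq hl.symm, (hg i).trans ea.symm, (hg j).trans eb.symm, ?_⟩
    rw [← hi, ← hj, ← hf] at h
    simp only at h ⊢
    rw [ea, eb, Ne, inj] at h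
    exact h
  · rintro ⟨i, hi, j, hj, ea, eb, h⟩
    simp only at hi hj ea eb h
    rw [hl] at hi hj
    rw [hg ⟨i, hi⟩] at ea
    rw [hg ⟨j, hj⟩] at eb
    subst ea eb
    refine ⟨(f _).2, (f _).2, ?_⟩
    simp only [Subtype.coe_eta, ← hf, Ne, inj]
    exact h

lemma sz_iff (a m : ℕ) : (∃ A, Computes a A ∧ Lin m A) ↔ Sz a m := by
  constructor
  · rintro ⟨A, hA, f, hf⟩
    have hg : ∀ i : Fin (m + 1), (List.ofFn fun i => (f i : ℕ)).getD i 0 = f i := fun i => by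
      rw [List.getD_eq_getElem _ _ (by simpa using i.2), List.getElem_ofFn]
    refine ⟨List.ofFn fun i => (f i : ℕ), fun i hi j hj h => ?_, by simp, fun t => ?_⟩
    · rw [List.length_ofFn] at hi hj
      rw [hg ⟨i, hi⟩, hg ⟨j, hj⟩, Subtype.val_inj, f.apply_eq_iff_eq] at h
      exact congrArg Fin.val h
    · rw [← diag_chi f hf (by simp) hg]; exact hA t
  · rintro ⟨l, hnd, hl, h⟩
    let g : Fin (m + 1) → ℕ := fun i => l.getD i 0
    have hg : Function.Injective g := fun i j e =>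
      Fin.ext (hnd i (i.2.trans_eq hl.symm) j (j.2.trans_eq hl.symm) e)
    let f := Equiv.ofInjective g hg
    let A : Str := ⟨Set.range g, Set.range_nonempty g, fun x y => f.symm x < f.symm y⟩
    have hf : ∀ i j, i < j ↔ A.R (f i) (f j) := fun i j => by simp [A]
    refine ⟨A, fun t => ?_, f, hf⟩
    rw [diag_chi (A := A) f hf hl (fun i => rfl)]; exact h t

lemma lin_iso {m : ℕ} {A B : Str} (h : Iso A B) (hA : Lin m A) : Lin m B := by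
  obtain ⟨g, hg⟩ := h
  obtain ⟨f, hf⟩ := hA
  exact ⟨f.trans g, fun i j => (hf i j).trans (hg _ _)⟩

lemma diag_eq {a : ℕ} {A B : Str} (hA : Computes a A) (hB : Computes a B) : A.U ⊆ B.U := by
  intro x hx
  by_contra hx'
  have h1 := (hA (0, x, x)).1 ⟨hx, hx, Or.inl ⟨rfl, rfl⟩⟩
  have h2 := (hB (0, x, x)).2 fun ⟨h, _⟩ => hx' h
  exact absurd (Part.mem_unique h1 h2) one_ne_zero

lemma lin_card {m : ℕ} {A : Str} (h : Lin m A) : Nat.card A.U = m + 1 := by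
  obtain ⟨f, -⟩ := h
  rw [← Nat.card_congr f]; simp

lemma sz_fun {a m m' : ℕ} (h : Sz a m) (h' : Sz a m') : m = m' := by
  obtain ⟨A, hA, hm⟩ := (sz_iff _ _).2 h
  obtain ⟨B, hB, hm'⟩ := (sz_iff _ _).2 h'
  have e := (diag_eq hA hB).antisymm (diag_eq hB hA)
  have h1 := lin_card hm
  have h2 := lin_card hm'
  rw [e] at h1
  omega

lemma E_iff (S : ℕ → Prop) (p : ℕ × ℕ) :
    E (fun A => ∃ m, S m ∧ Lin m A) p ↔ ∃ m, S m ∧ Sz p.1 m ∧ Sz p.2 m := by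
  constructor
  · rintro ⟨A, B, hA, hB, ⟨m, hS, hm⟩, -, hi⟩
    exact ⟨m, hS, (sz_iff _ _).1 ⟨A, hA, hm⟩, (sz_iff _ _).1 ⟨B, hB, lin_iso hi hm⟩⟩
  · rintro ⟨m, hS, h1, h2⟩
    obtain ⟨A, hA, f, hf⟩ := (sz_iff _ _).2 h1
    obtain ⟨B, hB, g, hg⟩ := (sz_iff _ _).2 h2
    refine ⟨A, B, hA, hB, ⟨m, hS, f, hf⟩, ⟨m, hS, g, hg⟩, f.symm.trans g, fun x y => ?_⟩
    simp [← hg, hf]

lemma ex_prim {α : Type} [Primcodable α] {R : ℕ → α → Prop} (h : PrimrecRel R) {f : α → ℕ}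
    (hf : Primrec f) : PrimrecPred fun a => ∃ i < f a, R i a :=
  (h.exists_mem_list.comp (Primrec.list_range.comp hf) Primrec.id).of_eq fun a => by simp

lemma all_prim {α : Type} [Primcodable α] {R : ℕ → α → Prop} (h : PrimrecRel R) {f : α → ℕ}
    (hf : Primrec f) : PrimrecPred fun a => ∀ i < f a, R i a :=
  (h.forall_mem_list.comp (Primrec.list_range.comp hf) Primrec.id).of_eq fun a => by simp

open Primrec in
lemma chi_prim : PrimrecPred chi := by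
  have hi : Primrec fun q : ℕ × ℕ × List ℕ × ℕ × ℕ × ℕ => q.2.1 := fst.comp snd
  have hl : Primrec fun q : ℕ × ℕ × List ℕ × ℕ × ℕ × ℕ => q.2.2.1 := fst.comp (snd.comp snd)
  have ht : Primrec fun q : ℕ × ℕ × List ℕ × ℕ × ℕ × ℕ => q.2.2.2 := snd.comp (snd.comp snd)
  have hk : ∀ c : ℕ, PrimrecPred fun q : ℕ × ℕ × List ℕ × ℕ × ℕ × ℕ => q.2.2.2.1 = c :=
    fun c => Primrec.eq.comp (fst.comp ht) (const c)
  have he : PrimrecPred fun q : ℕ × ℕ × List ℕ × ℕ × ℕ × ℕ => q.2.1 = q.1 := Primrec.eq.comp hi fst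
  have hlt : PrimrecPred fun q : ℕ × ℕ × List ℕ × ℕ × ℕ × ℕ => q.2.1 < q.1 := nat_lt.comp hi fst
  have h1 : PrimrecRel fun (j : ℕ) (q : ℕ × List ℕ × ℕ × ℕ × ℕ) =>
      q.2.1.getD q.1 0 = q.2.2.2.1 ∧ q.2.1.getD j 0 = q.2.2.2.2 ∧
      ((q.2.2.1 = 0 ∧ q.1 = j) ∨ (q.2.2.1 = 1 ∧ ¬ q.1 = j) ∨ (q.2.2.1 = 2 ∧ q.1 < j) ∨
        (q.2.2.1 = 3 ∧ ¬ q.1 < j)) :=
    (Primrec.eq.comp ((list_getD 0).comp hl hi) (fst.comp (snd.comp ht))).and
      ((Primrec.eq.comp ((list_getD 0).comp hl fst) (snd.comp (snd.comp ht))).and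
        (((hk 0).and he).or (((hk 1).and he.not).or (((hk 2).and hlt).or ((hk 3).and hlt.not)))))
  have h2 := ex_prim h1 (list_length.comp (fst.comp snd))
  exact ex_prim (R := fun (i : ℕ) (p : List ℕ × ℕ × ℕ × ℕ) => ∃ j < p.1.length,
    p.1.getD i 0 = p.2.2.1 ∧ p.1.getD j 0 = p.2.2.2 ∧ ((p.2.1 = 0 ∧ i = j) ∨ (p.2.1 = 1 ∧ ¬ i = j) ∨
      (p.2.1 = 2 ∧ i < j) ∨ (p.2.1 = 3 ∧ ¬ i < j))) h2 (list_length.comp fst)

open Primrec in
lemma nd_prim : PrimrecPred ND := by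
  have h1 : PrimrecRel fun (j : ℕ) (q : ℕ × List ℕ) => q.2.getD q.1 0 = q.2.getD j 0 → q.1 = j :=
    ((Primrec.eq.comp ((list_getD 0).comp (snd.comp snd) (fst.comp snd))
      ((list_getD 0).comp (snd.comp snd) fst)).not.or
        (Primrec.eq.comp (fst.comp snd) fst)).of_eq fun q => by tauto
  have h2 := all_prim h1 (list_length.comp snd)
  exact all_prim (R := fun (i : ℕ) (l : List ℕ) => ∀ j < l.length, l.getD i 0 = l.getD j 0 → i = j)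
    h2 list_length

lemma ev (y : ℕ) {α : Type} [Primcodable α] {f : α → ℕ} {g : α → ℕ × ℕ × ℕ} (hf : Computable f)
    (hg : Computable g) : Sig 1 α fun a => y ∈ phi (f a) (Encodable.encode (g a)) :=
  ev_sig.comp (hf.pair ((Computable.encode.comp hg).pair (Computable.const y)))

def Tot (a : ℕ) : Prop :=
  ∀ t : ℕ × ℕ × ℕ, 0 ∈ phi a (Encodable.encode t) ∨ 1 ∈ phi a (Encodable.encode t)

def Sz0 (a m : ℕ) : Prop := ∃ l : List ℕ, ND l ∧ l.length = m + 1 ∧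
  ¬ ∃ t : ℕ × ℕ × ℕ, (chi (l, t) ∧ 0 ∈ phi a (Encodable.encode t)) ∨
    (¬ chi (l, t) ∧ 1 ∈ phi a (Encodable.encode t))

lemma sz_split (a m : ℕ) : Sz a m ↔ Tot a ∧ Sz0 a m := by
  constructor
  · rintro ⟨l, h1, h2, h3⟩
    refine ⟨fun t => ?_, l, h1, h2, ?_⟩
    · by_cases h : chi (l, t)
      · exact Or.inr ((h3 t).1 h)
      · exact Or.inl ((h3 t).2 h)
    · rintro ⟨t, ⟨h, h'⟩ | ⟨h, h'⟩⟩
      · exact absurd (Part.mem_unique ((h3 t).1 h) h') one_ne_zero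
      · exact absurd (Part.mem_unique h' ((h3 t).2 h)) one_ne_zero
  · rintro ⟨h0, l, h1, h2, h3⟩
    refine ⟨l, h1, h2, fun t => ⟨fun h => ?_, fun h => ?_⟩⟩
    · exact (h0 t).resolve_left fun h' => h3 ⟨t, Or.inl ⟨h, h'⟩⟩
    · exact (h0 t).resolve_right fun h' => h3 ⟨t, Or.inr ⟨h, h'⟩⟩

lemma ntot_sig : Sig 2 ℕ fun a => ¬ Tot a :=
  (Sig.exd ((ev 0 Computable.fst Computable.snd).or
    (ev 1 Computable.fst Computable.snd)).neg_succ).of_eq fun a => by simp [Tot]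

lemma sz0_sig : Sig 2 (ℕ × ℕ) fun p => Sz0 p.1 p.2 := by
  have hc : PrimrecPred fun q : ((ℕ × ℕ) × List ℕ) × ℕ × ℕ × ℕ => chi (q.1.2, q.2) :=
    chi_prim.comp ((Primrec.snd.comp Primrec.fst).pair Primrec.snd)
  have ha : Computable fun q : ((ℕ × ℕ) × List ℕ) × ℕ × ℕ × ℕ => q.1.1.1 :=
    Computable.fst.comp (Computable.fst.comp Computable.fst)
  have h1 := (Sig.exd (((Sig.prim hc).and (ev 0 ha Computable.snd)).or
    ((Sig.prim hc.not).and (ev 1 ha Computable.snd)))).neg_succ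
  exact Sig.exd ((Sig.prim (nd_prim.comp Primrec.snd)).and ((Sig.prim (Primrec.eq.comp
    (Primrec.list_length.comp Primrec.snd) (Primrec.succ.comp (Primrec.snd.comp Primrec.fst)))).and
      h1))

def G (q : (ℕ × ℕ) × ℕ) : Prop := Sz q.1.1 q.2 ∧ Sz q.1.2 q.2

lemma G_sig : Sig 3 ((ℕ × ℕ) × ℕ) G := by
  have h : Sig 3 (ℕ × ℕ) fun p => Sz p.1 p.2 :=
    ((ntot_sig.of_neg.comp Computable.fst).and sz0_sig.succ).of_eq fun p => (sz_split _ _).symm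
  exact (h.comp ((Computable.fst.comp Computable.fst).pair Computable.snd)).and
    (h.comp ((Computable.snd.comp Computable.fst).pair Computable.snd))

lemma ndom_sig : Sig 3 (ℕ × ℕ) fun p => ¬ ∃ m, G (p, m) := by
  have h : Sig 2 (ℕ × ℕ) fun p => ∃ m, Sz0 p.1 m ∧ Sz0 p.2 m :=
    Sig.ex (A := fun q : (ℕ × ℕ) × ℕ => Sz0 q.1.1 q.2 ∧ Sz0 q.1.2 q.2)
      ((sz0_sig.comp ((Computable.fst.comp Computable.fst).pair Computable.snd)).and
        (sz0_sig.comp ((Computable.snd.comp Computable.fst).pair Computable.snd)))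
  refine (((ntot_sig.comp Computable.fst).or (ntot_sig.comp Computable.snd)).succ.or
    h.neg_succ).of_eq fun p => ?_
  simp only [G, sz_split]
  constructor
  · rintro ((h | h) | h) ⟨m, ⟨h1, h2⟩, h3, h4⟩
    exacts [h h1, h h3, h ⟨m, h2, h4⟩]
  · intro h
    by_contra hc
    simp only [not_or, not_not] at hc
    obtain ⟨⟨h1, h3⟩, m, h2, h4⟩ := hc
    exact h ⟨m, ⟨h1, h2⟩, h3, h4⟩

lemma std : ∃ h : ℕ → ℕ, Computable h ∧ ∀ m, Sz (h m) m := by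
  classical
  have hc : PrimrecPred fun q : ℕ × ℕ =>
      chi (List.range (q.1 + 1), Denumerable.ofNat (ℕ × ℕ × ℕ) q.2) :=
    chi_prim.comp ((Primrec.list_range.comp (Primrec.succ.comp Primrec.fst)).pair
      ((Primrec.ofNat _).comp Primrec.snd))
  obtain ⟨s, hs, es⟩ := smn (Primrec.ite hc (Primrec.const 1) (Primrec.const 0)).to_comp.partrec
  refine ⟨s, hs, fun m => ⟨List.range (m + 1), fun i hi j hj h => ?_, by simp, fun t => ?_⟩⟩
  · rw [List.getD_eq_getElem _ _ hi, List.getD_eq_getElem _ _ hj] at h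
    simpa using h
  · simp only [phi, es, PFun.coe_val, Denumerable.ofNat_encode]
    constructor <;> intro h <;> simp [h]

theorem result (n : ℕ) (hn : 3 ≤ n) :
    (∃ K : Str → Prop, (∀ A B, Iso A B → K A → K B) ∧
      Sig n (ℕ × ℕ) (E K) ∧ ¬ Sig n (ℕ × ℕ) (fun p => ¬ E K p) ∧
      ¬ ∀ C : ℕ → Prop, Sig n ℕ C → ManyOneReducible C (E K)) ∧
    (∃ K : Str → Prop, (∀ A B, Iso A B → K A → K B) ∧
      Sig n (ℕ × ℕ) (fun p => ¬ E K p) ∧ ¬ Sig n (ℕ × ℕ) (E K) ∧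
      ¬ ∀ C : ℕ → Prop, Sig n ℕ (fun e => ¬ C e) → ManyOneReducible C (E K)) := by
  obtain ⟨n, rfl⟩ : ∃ k, n = k + 1 := ⟨n - 1, by omega⟩
  obtain ⟨S, hS, hinf, hmeet⟩ := simple n
  obtain ⟨C, hC, hinc⟩ := incomplete n hmeet
  obtain ⟨h, hh, hsz⟩ := std
  have hG := G_sig.mono hn
  have hD := ndom_sig.mono hn
  have hfun : ∀ p m m', G (p, m) → G (p, m') → m = m' := fun p m m' a b => sz_fun a.1 b.1
  have hstd : ∀ (T : ℕ → Prop) m, E (fun A => ∃ m, T m ∧ Lin m A) (h m, h m) ↔ T m := fun T m => by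
    rw [E_iff]
    exact ⟨fun ⟨m', h1, h2, _⟩ => sz_fun h2 (hsz m) ▸ h1, fun h1 => ⟨m, h1, hsz m, hsz m⟩⟩
  have hcl : ∀ (T : ℕ → Prop) A B, Iso A B → (∃ m, T m ∧ Lin m A) → ∃ m, T m ∧ Lin m B :=
    fun T A B hi ⟨m, h1, h2⟩ => ⟨m, h1, lin_iso hi h2⟩
  have hns : ¬ Sig (n + 1) ℕ fun m => ¬ S m := fun h' => by
    obtain ⟨a, h1, h2⟩ := hmeet _ h' hinf
    exact h1 h2
  have hSG : Sig (n + 1) (ℕ × ℕ) fun p => ∃ m, S m ∧ G (p, m) :=
    Sig.ex (A := fun q : (ℕ × ℕ) × ℕ => S q.2 ∧ G q) ((hS.comp Computable.snd).and hG)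
  refine ⟨⟨fun A => ∃ m, S m ∧ Lin m A, hcl S, hSG.of_eq fun p => (E_iff S p).symm,
    fun h' => hns ((h'.comp (hh.pair hh)).of_eq fun m => not_congr (hstd S m)), fun hall => ?_⟩,
    ⟨fun A => ∃ m, ¬ S m ∧ Lin m A, hcl _, (hD.or hSG).of_eq fun p => ?_,
    fun h' => hns ((h'.comp (hh.pair hh)).of_eq fun m => hstd _ m), fun hall => ?_⟩⟩
  · obtain ⟨f, hf, e⟩ := hall C hC
    simp only [E_iff] at e
    refine hinc (fun e => ¬ ∃ m, G (f e, m)) (fun q => G (f q.1, q.2)) (hD.comp hf)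
      (hG.comp ((hf.comp Computable.fst).pair Computable.snd)) (fun e => hfun (f e))
      (fun x hx hc => ?_) (fun x m hm hs hc => ?_) (fun x hc hq => ?_)
    · obtain ⟨m, -, hm⟩ := (e x).1 hc
      exact hx ⟨m, hm⟩
    · obtain ⟨m', h1, hm'⟩ := (e x).1 hc
      exact hs (hfun (f x) m' m hm' hm ▸ h1)
    · obtain ⟨m, hm⟩ := not_not.1 hq
      exact ⟨m, hm, fun hs => hc ((e x).2 ⟨m, hs, hm⟩)⟩
  · rw [E_iff]
    constructor
    · rintro (h1 | ⟨m, h1, h2⟩) ⟨m', h3, h4⟩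
      · exact h1 ⟨m', h4⟩
      · exact h3 (hfun _ _ _ h2 h4 ▸ h1)
    · intro h1
      by_cases h2 : ∃ m, G (p, m)
      · obtain ⟨m, hm⟩ := h2
        exact Or.inr ⟨m, by_contra fun hs => h1 ⟨m, hs, hm⟩, hm⟩
      · exact Or.inl h2
  · obtain ⟨f, hf, e⟩ := hall (fun e => ¬ C e) (hC.of_eq fun e => by simp)
    simp only [E_iff] at e
    refine hinc (fun _ => False) (fun q => G (f q.1, q.2))
      (Sig.prim ((Primrec.eq.comp (Primrec.const 0) (Primrec.const 1)).of_eq fun _ => by simp))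
      (hG.comp ((hf.comp Computable.fst).pair Computable.snd)) (fun e => hfun (f e))
      (fun x hx => hx.elim) (fun x m hm hs => (e x).2 ⟨m, hs, hm⟩) (fun x hc _ => ?_)
    obtain ⟨m, h1, h2⟩ := (e x).1 hc
    exact ⟨m, h2, h1⟩

end Pool.Agent.Results.MP_be00aa_lc.Proper
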